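import Pool.Agent.W394.BQN.Stm2

/-!
# Regular local rings of dimension at most one are principal ideal domains

Part `RD` of project BQN (owner helper394).
-/

set_option autoImplicit false

namespace Pool.Agent.W30.BQN

open IsLocalRing

theorem rd_main (S : Type) [CommRing S] [hS : IsRegularLocalRing S] (hd : ringKrullDim S ≤ 1) :
    IsDomain S ∧ IsPrincipalIdealRing S := by
  classical
  have hm : ((maximalIdeal S).spanFinrank : WithBot ℕ∞) = ringKrullDim S :=
    IsRegularLocalRing.spanFinrank_maximalIdeal
  have hfg : (maximalIdeal S).FG := IsNoetherian.noetherian _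
  have h1 : (maximalIdeal S).spanFinrank ≤ 1 := by
    have := hm.le.trans hd
    exact_mod_cast this
  rcases Nat.lt_or_ge (maximalIdeal S).spanFinrank 1 with h0 | h0
  · have h0' : (maximalIdeal S).spanFinrank = 0 := by omega
    have hbot : maximalIdeal S = ⊥ := (Submodule.spanFinrank_eq_zero_iff_eq_bot hfg).1 h0'
    have hF : IsField S := IsLocalRing.isField_iff_maximalIdeal_eq.2 hbot
    let _ := hF.toField
    exact ⟨inferInstance, inferInstance⟩
  · have h0' : (maximalIdeal S).spanFinrank = 1 := by omega
    obtain ⟨hpr, hnb⟩ := (Submodule.spanFinrank_eq_one_iff _).1 h0'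
    obtain ⟨t, ht⟩ := hpr
    have htm : t ∈ maximalIdeal S := by rw [ht]; exact Submodule.mem_span_singleton_self t
    have htspan : maximalIdeal S = Ideal.span {t} := ht
    have hnn : ¬ IsNilpotent t := by
      intro hn
      have hdim : Ring.KrullDimLE 0 S := by
        refine Ring.KrullDimLE.mk₀ ?_
        intro I hI
        have hle : maximalIdeal S ≤ I := by
          rw [htspan, Ideal.span_singleton_le_iff_mem]
          obtain ⟨n, hn⟩ := hn
          exact hI.mem_of_pow_mem n (by rw [hn]; exact I.zero_mem)
        have : maximalIdeal S = I := (IsLocalRing.eq_maximalIdeal (I := I) ?_).symm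
        · rw [← this]; infer_instance
        · have := (IsLocalRing.maximalIdeal.isMaximal S).eq_of_le hI.ne_top hle
          rw [← this]; infer_instance
      have h2 := (Ring.krullDimLE_iff).1 hdim
      rw [← hm, h0'] at h2
      norm_num at h2
    -- Krull
    have hK : ∀ x : S, x ≠ 0 → ∃ (k : ℕ) (v : S), IsUnit v ∧ x = v * t ^ k := by
      intro x hx
      have hI : ⨅ i : ℕ, (maximalIdeal S) ^ i = ⊥ :=
        Ideal.iInf_pow_eq_bot_of_isLocalRing _ (IsLocalRing.maximalIdeal.isMaximal S).ne_top
      have hex : ∃ n : ℕ, x ∉ (maximalIdeal S) ^ n := by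
        by_contra hcon
        push Not at hcon
        have : x ∈ (⨅ i : ℕ, (maximalIdeal S) ^ i) := by
          rw [Ideal.mem_iInf]; exact hcon
        rw [hI] at this
        exact hx (by simpa using this)
      have hspec := Nat.find_spec hex
      have hpos : Nat.find hex ≠ 0 := by
        intro h
        rw [h] at hspec
        exact hspec (by simp)
      obtain ⟨k, hk⟩ := Nat.exists_eq_succ_of_ne_zero hpos
      have hxk : x ∈ (maximalIdeal S) ^ k := by
        have := Nat.find_min hex (m := k) (by omega)
        simpa using this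
      have hxk' : x ∉ (maximalIdeal S) ^ (k + 1) := by
        rw [hk] at hspec; exact hspec
      rw [htspan, Ideal.span_singleton_pow, Ideal.mem_span_singleton'] at hxk
      obtain ⟨v, hv⟩ := hxk
      refine ⟨k, v, ?_, hv.symm⟩
      by_contra hnu
      have : v ∈ maximalIdeal S := (IsLocalRing.mem_maximalIdeal v).2 hnu
      apply hxk'
      rw [← hv, pow_succ']
      exact Ideal.mul_mem_mul this (Ideal.pow_mem_pow htm k)
    have hdom : IsDomain S := by
      have : NoZeroDivisors S := by
        refine ⟨?_⟩
        intro a b hab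
        by_contra hcon
        push Not at hcon
        obtain ⟨i, v, hv, hav⟩ := hK a hcon.1
        obtain ⟨j, w, hw, hbw⟩ := hK b hcon.2
        apply hnn
        refine ⟨i + j, ?_⟩
        have h3 : (v * w) * t ^ (i + j) = 0 := by
          rw [← hab, hav, hbw]; ring
        exact ((hv.mul hw).mul_right_eq_zero).1 h3
      exact NoZeroDivisors.to_isDomain S
    refine ⟨hdom, ?_⟩
    have hT := tfae_of_isNoetherianRing_of_isLocalRing_of_isDomain S
    have hP : (maximalIdeal S).IsPrincipal := ⟨⟨t, ht⟩⟩
    exact (hT.out 0 4).2 hP
/-- part `RD` of project BQN -/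
theorem t_RD : Pool.Agent.W394.BQN.S_RD := fun S _ _ hd => rd_main S hd

end Pool.Agent.W30.BQN
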